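import Mathlib
import Pool.Agent.Lib.MP_b072c6_co.Transfer

/-!
# The function `f(n) = T_113(n, 2n - 3)`, `n ≥ 4`, is 2-adically continuous

The definitions (cells, adjacency, benzels, stones, bones, tilings and their number `T113`) are in
`Pool.Agent.Lib.MP_b072c6_co.Defs`.

Outline of the proof, with `m = n - 2`.

* The cells of the `(n, 2n - 3)`-benzel are the pairs (site, colour), where a site is a triple of
  nonnegative integers with sum `m` and a colour is an element of `Fin 3`, except the three pairs
  (corner `l`, `l`). In these coordinates there are fifteen kinds of tiles: one consists of the three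
  cells of one site, nine have two cells in one site, five meet three sites.
* A linear certificate (`Weights.lean`) shows that the last five kinds occur in no tiling.
* The tiles with two cells at a site form three lattice paths, starting in the three corners and
  ending in one common site. Tilings are in bijection with such triples of paths (`Structure.lean`).
* Hence (`Count.lean`) the number of tilings is
  `∑_{a+b+c=m} W(a,c) W(b,a) W(c,b)` minus three similar sums over `a+b+c=m-1`, where `W` is given by
  `W(a,c) = W(a-1,c) + W(a,c-1) + W(a+1,c-1)`.
* The formula `W(a,c) = ∑_j 2^j C(a+1,j) G(j,c)` and the stability of 2-adically continuous sequences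
  under convolution (`Adic.lean`) give the theorem.
-/

namespace Pool.Agent.Results.MP_b072c6_co.Continuity

open Pool.Agent.Lib.MP_b072c6_co

/-- The set of tilings counted by `T113 n (2 * n - 3)` is finite. -/
theorem finite_tilings (n : ℤ) : {T | IsTiling n (2 * n - 3) T}.Finite := by
  have h := benzel_finite (n - 2)
  rw [show n - 2 + 2 = n by ring] at h
  apply (h.finite_subsets.finite_subsets).subset
  intro T hT t ht
  simp only [Set.mem_ofPred_eq]
  rw [← hT.2.2]
  exact Set.subset_sUnion_of_mem ht

/-- **2-adic continuity of `f(n) = T_113(n, 2n - 3)`, `n ≥ 4`.** For every `k` there is `M` such that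
`n ≡ n' (mod 2 ^ M)` implies `f(n) ≡ f(n') (mod 2 ^ k)` for all integers `n, n' ≥ 4`. -/
theorem result : ∀ k : ℕ, ∃ M : ℕ, ∀ n n' : ℤ, 4 ≤ n → 4 ≤ n' → n ≡ n' [ZMOD 2 ^ M] →
    (T113 n (2 * n - 3) : ℤ) ≡ (T113 n' (2 * n' - 3) : ℤ) [ZMOD 2 ^ k] :=
  main

end Pool.Agent.Results.MP_b072c6_co.Continuity
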